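import Pool.Agent.Y718.FinE
import Pool.Agent.TH729.SQ.Comp

/-!
# Mazur's conjecture on the components of the closure of the rational points: quadric bundles over
the line

`f` is a polynomial over `ℚ` in the variables `x, y₁, …, y_r`, of degree at most four in `x` and of
total degree at most two in `y₁, …, y_r`. We consider the affine variety `w² = f(x, y₁, …, y_r)`, a
family of quadrics of dimension `r` over the `x`-line. For `r = 1` these are the conic bundle
surfaces `w² = A(x) y² + B(x) y + C(x)` with `deg A, deg B, deg C ≤ 4`, which can have up to eight
degenerate fibres (the double covers of `ℙ¹ × ℙ¹` branched along a curve of bidegree `(4, 2)`).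

(1) The closure in `ℝ^(r+2)` of the set of all rational points of this variety has only finitely
many connected components. There is no further hypothesis on `f`.

(2) The same for the closure of the set of the values of rational functions at the rational points
of products of such varieties and affine spaces. (This includes the open subvarieties of such
products which are the complement of a hypersurface.)

These closures are semialgebraic over `ℚ` (library `Y718`).
-/

set_option autoImplicit false

namespace Pool.Agent.Results.MP_4d3b00_ag.QuadricBundles

open MvPolynomial Pool.Agent.TH729.SQ Pool.Agent.Y718 Pool.Agent.H581R2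

/-- The polynomial `f` in the variables `x = X 0` and `y_j = X (j + 1)` has degree at most four in
`x` and total degree at most two in the variables `y_j`. -/
def QuadricFamily {r : ℕ} (f : MvPolynomial (Fin (r + 1)) ℚ) : Prop :=
  f.degreeOf 0 ≤ 4 ∧ ∀ d ∈ f.support, ∑ j : Fin r, d j.succ ≤ 2

/-- The rational points of the variety `w² = f(z)`; the coordinate `0` is `w`. -/
def doubleCover {n : ℕ} (f : MvPolynomial (Fin n) ℚ) : Set (Fin (n + 1) → ℚ) :=
  {u | u 0 ^ 2 = eval (fun k => u k.succ) f}

/-- **The components of the closure of the set of rational points of `w² = f(x, y₁, …, y_r)`.** -/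
theorem result :
    -- (1) the closure of the set of the rational points
    (∀ (r : ℕ) (f : MvPolynomial (Fin (r + 1)) ℚ), QuadricFamily f →
      Finite (ConnectedComponents ↥(closure
        {x : Fin (r + 2) → ℝ | ∃ u ∈ doubleCover f, x = fun k => (u k : ℝ)}))) ∧
    -- (2) the closure of the set of the values of rational functions on products
    (∀ (J κ : Type) [Finite J] [Finite κ] (r : ℕ) (f : J → MvPolynomial (Fin (r + 1)) ℚ),
      (∀ j, QuadricFamily (f j)) →
      ∀ (m : ℕ) (p : Fin m → MvPolynomial ((J × Fin (r + 2)) ⊕ κ) ℚ)
        (q : MvPolynomial ((J × Fin (r + 2)) ⊕ κ) ℚ),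
        Finite (ConnectedComponents ↥(closure
          {y : Fin m → ℝ | ∃ (x : J → Fin (r + 2) → ℚ) (u : κ → ℚ),
            (∀ j, x j ∈ doubleCover (f j)) ∧ eval (Sum.elim (fun a => x a.1 a.2) u) q ≠ 0 ∧
            ∀ k, y k = ((eval (Sum.elim (fun a => x a.1 a.2) u) (p k) /
              eval (Sum.elim (fun a => x a.1 a.2) u) q : ℚ) : ℝ)}))) := by
  refine ⟨fun r f hf => sa_comp (line_final f hf.1 hf.2), ?_⟩
  intro J κ _ _ r f hf m p q
  exact sa_comp (values_main (fun j => doubleCover (f j))
    (fun j => line_final (f j) (hf j).1 (hf j).2) p q)

end Pool.Agent.Results.MP_4d3b00_ag.QuadricBundles
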