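import Pool.Agent.Y718.QuartC

/-!
# Mazur's conjecture on the components of the closure of the rational points: quartic double covers

Let `F` be a form of degree four over `ℚ` in `n + 1 ≥ 3` variables whose zero set in the complex
projective space is smooth, and let `X` be the double cover `w² = F(Z₀, …, Z_n)` of the projective
space `ℙⁿ`, branched along the smooth quartic hypersurface `F = 0`. For `n = 2` these are the del
Pezzo surfaces of degree two, for `n = 3` the quartic double solids.

(1) For each affine chart `Z_p = 1` let `V` be the variety `w² = F(z₁, …, 1, …, z_n)`, `w t = 1`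
(the complement of the branch divisor). The closure of `V(ℚ)` in `V(ℝ)` has only finitely many
connected components.

(2) If the closure of the set of the rational points of the branch divisor `F(z₁, …, 1, …, z_n) = 0`
has only finitely many connected components, then so does the closure of the set of all rational
points of `w² = F(z₁, …, 1, …, z_n)`. (For `n = 2` the branch curve has genus three, and it has only
finitely many rational points by the theorem of Faltings, which is not used here.)

(3) The closure of the set of the values of rational functions at rational points with `w_j ≠ 0` of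
products of affine cones `w_j² = F_j(Z₀, …, Z_n)` and affine spaces has only finitely many connected
components.
-/

set_option autoImplicit false

namespace Pool.Agent.Results.MP_4d3b00_ag.QuarticDoubleCovers

open MvPolynomial Pool.Agent.TH729.SQ Pool.Agent.Y718 Pool.Agent.H581R2

/-- The partial derivatives of the form have no common zero over the complex numbers besides the
origin. -/
def SmoothForm {n : ℕ} (F : MvPolynomial (Fin (n + 1)) ℚ) : Prop :=
  ∀ y : Fin (n + 1) → ℂ, (∀ i, aeval y (pderiv i F) = 0) → y = 0

/-- The rational points `(w, z)` of the affine variety `w² = F(z₁, …, z_p, 1, z_{p+1}, …, z_n)`; the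
coordinate `0` is `w`. -/
def chart {n : ℕ} (F : MvPolynomial (Fin (n + 1)) ℚ) (p : Fin (n + 1)) : Set (Fin (n + 1) → ℚ) :=
  {u | u 0 ^ 2 = eval (p.insertNth (α := fun _ => ℚ) 1 fun k => u k.succ) F}

/-- The rational points `(w, Z)` of the affine cone `w² = F(Z)`; the coordinate `0` is `w`. -/
def cone {n : ℕ} (F : MvPolynomial (Fin (n + 1)) ℚ) : Set (Fin (n + 2) → ℚ) :=
  {u | u 0 ^ 2 = eval (fun k => u k.succ) F}

/-- The closure in `ℝᵐ` of a set of rational points. -/
def realClosure {m : ℕ} (D : Set (Fin m → ℚ)) : Set (Fin m → ℝ) :=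
  closure {x : Fin m → ℝ | ∃ u ∈ D, x = fun k => (u k : ℝ)}

/-- The rational points `(t, w, z)` of the open subvariety `w ≠ 0` of the chart, as a closed
subvariety of the affine space; the coordinate `0` is `t = 1 / w`, the coordinate `1` is `w`. -/
def openChart {n : ℕ} (F : MvPolynomial (Fin (n + 1)) ℚ) (p : Fin (n + 1)) :
    Set (Fin (n + 2) → ℚ) :=
  {u | u 0 * u 1 = 1 ∧ (fun k : Fin (n + 1) => u k.succ) ∈ chart F p}

/-- **The components of the closure of the set of rational points of quartic double covers.** -/
theorem result (n : ℕ) (hn : 2 ≤ n) :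
    (∀ F : MvPolynomial (Fin (n + 1)) ℚ, F.IsHomogeneous 4 → SmoothForm F →
      -- (1) the complement of the branch divisor
      (∀ p, Finite (ConnectedComponents ↥(realClosure (openChart F p)))) ∧
      -- (2) all rational points, if the branch divisor is under control
      (∀ p, Finite (ConnectedComponents ↥(realClosure {z : Fin n → ℚ |
          eval (p.insertNth (α := fun _ => ℚ) 1 z) F = 0})) →
        Finite (ConnectedComponents ↥(realClosure (chart F p))))) ∧
    -- (3) the closure of the set of the values of rational functions on products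
    (∀ (J κ : Type) [Finite J] [Finite κ] (F : J → MvPolynomial (Fin (n + 1)) ℚ),
      (∀ j, (F j).IsHomogeneous 4 ∧ SmoothForm (F j)) →
      ∀ (m : ℕ) (p : Fin m → MvPolynomial ((J × Fin (n + 2)) ⊕ κ) ℚ)
        (q : MvPolynomial ((J × Fin (n + 2)) ⊕ κ) ℚ),
        Finite (ConnectedComponents ↥(closure {y : Fin m → ℝ | ∃ (x : J → Fin (n + 2) → ℚ)
          (u : κ → ℚ), (∀ j, x j ∈ cone (F j) ∧ x j 0 ≠ 0) ∧
          eval (Sum.elim (fun a => x a.1 a.2) u) q ≠ 0 ∧
          ∀ k, y k = ((eval (Sum.elim (fun a => x a.1 a.2) u) (p k) /
            eval (Sum.elim (fun a => x a.1 a.2) u) q : ℚ) : ℝ)}))) := by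
  have hX : ∀ (F : MvPolynomial (Fin (n + 1)) ℚ) (p : Fin (n + 1)),
      X0 (deh F p) = {u | u ∈ chart F p ∧ u 0 ≠ 0} := by
    intro F p
    ext u
    simp only [X0, chart, Set.mem_ofPred_eq, deh_eval, ic_eq]
    exact and_comm
  have hC : ∀ F : MvPolynomial (Fin (n + 1)) ℚ, Cone F = {u | u ∈ cone F ∧ u 0 ≠ 0} := by
    intro F
    ext u
    simp only [Cone, cone, Set.mem_ofPred_eq]
    exact and_comm
  refine ⟨fun F hF hsm => ⟨fun p => ?_, fun p hb => ?_⟩, ?_⟩
  · refine sa_comp (open_SA (f := deh F p) (chart_SA hF (smooth_of hsm) hn p) fun u => ?_)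
    simp only [openChart, chart, Set.mem_ofPred_eq, deh_eval, ic_eq]
    rfl
  · have h1 := chart_SA hF (smooth_of hsm) hn p
    have e1 : {z : Fin n → ℚ | eval z (deh F p) = 0} =
        {z : Fin n → ℚ | eval (p.insertNth (α := fun _ => ℚ) 1 z) F = 0} := by
      ext z
      simp only [Set.mem_ofPred_eq, deh_eval, ic_eq]
    have e2 : {u : Fin (n + 1) → ℚ | u 0 ^ 2 = eval (fun k => u k.succ) (deh F p)} = chart F p := by
      ext u
      simp only [chart, Set.mem_ofPred_eq, deh_eval, ic_eq]
    have h2 := full_comp (deh F p) (sa_comp h1) (by rw [e1]; exact hb)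
    rw [e2] at h2
    exact h2
  · intro J κ _ _ F hF m p q
    exact sa_comp (values_main (fun j => {u | u ∈ cone (F j) ∧ u 0 ≠ 0}) (fun j => by
      rw [← hC]
      exact Cone_SA (hF j).1 (smooth_of (hF j).2) hn) p q)

end Pool.Agent.Results.MP_4d3b00_ag.QuarticDoubleCovers
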